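import Pool.Agent.LefProd.Final2

/-!
Q2 for `n = 3` and `n = 4`: the strong Lefschetz property for artinian complete intersections of
products of linear forms, when at most two of the degrees exceed `2`.
-/

set_option autoImplicit false

universe u

namespace Pool.Agent.Results.MP_53b7aa_ag.TwoHighSLP

open MvPolynomial

variable {K : Type u} [Field K] {n : ℕ}

/-- `f` is a product of `a` linear forms. -/
def IsProd (f : MvPolynomial (Fin n) K) (a : ℕ) : Prop :=
  ∃ ℓ : Fin a → MvPolynomial (Fin n) K, (∀ j, (ℓ j).IsHomogeneous 1) ∧ f = ∏ j, ℓ j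

/-- With `A = R / I`, multiplication by `ℓ ^ k` from `A_j` to `A_{j+k}` is injective or
surjective. -/
def MaxRank (I : Ideal (MvPolynomial (Fin n) K)) (ℓ : MvPolynomial (Fin n) K) (k j : ℕ) : Prop :=
  (∀ p : MvPolynomial (Fin n) K, p.IsHomogeneous j → ℓ ^ k * p ∈ I → p ∈ I) ∨
  (∀ q : MvPolynomial (Fin n) K, q.IsHomogeneous (j + k) →
    ∃ p : MvPolynomial (Fin n) K, p.IsHomogeneous j ∧ q - ℓ ^ k * p ∈ I)

/-- The strong Lefschetz property of `R / I`. -/
def SLP (I : Ideal (MvPolynomial (Fin n) K)) : Prop :=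
  ∃ ℓ : MvPolynomial (Fin n) K, ℓ.IsHomogeneous 1 ∧ ∀ k j, MaxRank I ℓ k j

theorem result (K : Type u) [Field K] [CharZero K] (n : ℕ) (hn : n = 3 ∨ n = 4)
    (f : Fin n → MvPolynomial (Fin n) K)
    (a : Fin n → ℕ) (ha : ∀ i, 1 ≤ a i) (hf : ∀ i, IsProd (f i) (a i))
    (hfin : Module.Finite K (MvPolynomial (Fin n) K ⧸ Ideal.span (Set.range f)))
    (h : n ≤ (Finset.univ.filter fun i => a i ≤ 2).card + 2) :
    SLP (Ideal.span (Set.range f)) := by
  obtain ⟨𝓠, 𝓡, h1, h2, h3, h4, h5⟩ := LefProd.reduce_q f a ha hf hfin (n - 2) (by omega)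
  obtain ⟨μ, hμ⟩ := LefProd.slp_of h3
    fun m j hj => LefProd.slp_small hn (by omega) h2 h3 hj
  refine ⟨LefProd.lin μ, LefProd.lin_isHomogeneous μ, ?_⟩
  rw [h4]
  exact hμ

end Pool.Agent.Results.MP_53b7aa_ag.TwoHighSLP
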